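import Mathlib
import Pool.Agent.H.MP_752b71_an.A
import Pool.Agent.H.MP_752b71_an.B

open Set Metric Filter Topology
open scoped Manifold ContDiff

namespace Pool.Agent.Results.MP_752b71_an.NoExt

section defs

variable {X : Type} [TopologicalSpace X] [ChartedSpace (ℂ × ℂ × ℂ) X]

/-- `f` is a holomorphic map from a neighbourhood of the closed unit disc into `S`. -/
def Disc (S : Set X) (f : ℂ → X) : Prop :=
  ∃ r > (1 : ℝ), MDifferentiableOn 𝓘(ℂ) 𝓘(ℂ, ℂ × ℂ × ℂ) f (ball 0 r) ∧ MapsTo f (ball 0 r) S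

/-- Plurisubharmonic on (the complex submanifold) `S`, not identically `-∞` on any open piece. -/
def Psh (S : Set X) (φ : X → EReal) : Prop :=
  UpperSemicontinuousOn φ S ∧ (∀ x ∈ S, φ x ≠ ⊤) ∧ S ⊆ closure {x ∈ S | φ x ≠ ⊥} ∧
    ∀ f, Disc S f → ∀ c : ℝ, (max (φ (f 0)) c).toReal ≤
      Real.circleAverage (fun z => (max (φ (f z)) c).toReal) 0 1

/-- Semi-positive singular hermitian metric on the restriction to `S` of the line bundle with
trivialising cover `U` and transition functions `g`, given by its local weights. -/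
def PosMetric {ι : Type} (U : ι → Set X) (g : ι → ι → X → ℂ) (S : Set X) (φ : ι → X → EReal) :
    Prop :=
  (∀ i, Psh (S ∩ U i) (φ i)) ∧
    ∀ i j, ∀ x ∈ S ∩ U i ∩ U j, φ i x = φ j x + (Real.log (‖g i j x‖ ^ 2) : ℝ)

/-- `S` carries a Kähler form, given by local potentials. -/
def Kahler (S : Set X) : Prop :=
  ∃ (κ : Type) (V : κ → Set X) (ρ : κ → X → ℝ), (∀ k, IsOpen (V k)) ∧ S ⊆ ⋃ k, V k ∧
    (∀ k, ContMDiffOn 𝓘(ℝ, ℂ × ℂ × ℂ) 𝓘(ℝ) ∞ (ρ k) (V k)) ∧
    (∀ k f, Disc (S ∩ V k) f → mfderiv 𝓘(ℂ) 𝓘(ℂ, ℂ × ℂ × ℂ) f 0 ≠ 0 →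
      0 < Laplacian.laplacian (fun z => ρ k (f z)) 0) ∧
    ∀ k l f, Disc (S ∩ V k ∩ V l) f →
      Laplacian.laplacian (fun z => ρ k (f z)) 0 = Laplacian.laplacian (fun z => ρ l (f z)) 0

lemma Disc.mono {S T : Set X} {f : ℂ → X} (h : Disc S f) (hs : S ⊆ T) : Disc T f :=
  let ⟨r, h1, h2, h3⟩ := h
  ⟨r, h1, h2, h3.mono_right hs⟩

lemma Disc.an {S : Set X} {f : ℂ → X} (h : Disc S f) {F : X → ℂ}
    (hF : MDifferentiableOn 𝓘(ℂ, ℂ × ℂ × ℂ) 𝓘(ℂ) F S) :
    AnalyticOnNhd ℂ (fun z => F (f z)) (closedBall 0 1) := by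
  obtain ⟨r, h1, h2, h3⟩ := h
  have := (mdifferentiableOn_iff_differentiableOn.1 (hF.comp h2 h3)).analyticOnNhd isOpen_ball
  exact this.mono (closedBall_subset_ball h1)

lemma psh_log {S : Set X} {F : X → ℂ} (hF : MDifferentiableOn 𝓘(ℂ, ℂ × ℂ × ℂ) 𝓘(ℂ) F S)
    (hd : S ⊆ closure {x ∈ S | F x ≠ 0}) : Psh S fun x => ENNReal.log ‖F x‖ₑ := by
  refine ⟨?_, fun x _ => by simp, ?_, fun f hf c => H.MP_752b71_an.sub (hf.an hF) c⟩
  · exact (ENNReal.continuous_log.comp_continuousOn hF.continuousOn.enorm).upperSemicontinuousOn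
  · simpa using hd

end defs

open H.MP_752b71_an

lemma log_rel {a b k : ℂ} (hk : k ≠ 0) (h : a = k ^ 2 * b) :
    ENNReal.log ‖a‖ₑ = ENNReal.log ‖b‖ₑ + (Real.log (‖k‖ ^ 2) : ℝ) := by
  rw [h, enorm_mul, ENNReal.log_mul_add, add_comm, ← ofReal_norm (k ^ 2),
    ENNReal.log_ofReal_of_pos (norm_pos_iff.2 (pow_ne_zero 2 hk)), norm_pow]

lemma dens (α) {S : Set X} {F : E → ℂ} {q : X} (hq : q ∈ U α) (d : E)
    (hS : ∀ ε : ℂ, c α q + ε • d ∈ D → ci α (c α q + ε • d) ∈ S) (a k : ℂ) (hk : k ≠ 0 ∨ a ≠ 0)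
    (hF : ∀ ε : ℂ, F (c α q + ε • d) = a + ε * k) :
    q ∈ closure {x ∈ S ∩ U α | F (c α x) ≠ 0} := by
  have h1 : Tendsto (fun ε : ℂ => c α q + ε • d) (𝓝[≠] 0) (𝓝 (c α q)) := by
    have : Continuous fun ε : ℂ => c α q + ε • d := by fun_prop
    simpa using (this.tendsto 0).mono_left nhdsWithin_le_nhds
  have hD := D_open.mem_nhds (c_mem α q)
  have h2 := (((ci_cont α).continuousAt hD).tendsto).comp h1
  rw [ci_c hq] at h2
  refine mem_closure_of_tendsto h2 ?_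
  have h3 : ∀ᶠ ε : ℂ in 𝓝[≠] 0, a + ε * k ≠ 0 := by
    by_cases ha : a = 0
    · filter_upwards [self_mem_nhdsWithin] with ε hε
      simpa [ha, hk.resolve_right (not_not.2 ha)] using hε
    · have : Continuous fun ε : ℂ => a + ε * k := by fun_prop
      exact nhdsWithin_le_nhds (this.continuousAt.eventually_ne (by simpa using ha))
  filter_upwards [h1.eventually hD, h3] with ε h h'
  exact ⟨⟨hS ε h, ci_mem α h⟩, by simpa only [Function.comp, c_ci α h, hF] using h'⟩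

def σ (α : Fin 4) (e : E) : ℂ := ![1, e.2.1, e.1 - e.2.2 * e.2.1, e.1 * e.2.1 - e.2.2] α

lemma g_ne {α β} {q : X} (ha : q ∈ U α) (hb : q ∈ U β) : g α β q ≠ 0 :=
  div_ne_zero (rel ha hb).2.1 (rel ha hb).1

lemma xne (α) (q : X) : (l α q).1 0 ≠ 0 ∨ (l α q).1 1 ≠ 0 := by
  have := s_bi α (c α q)
  by_contra h
  push Not at h
  fin_cases α <;> simp [bi, l] at this h <;> simp [h] at this

lemma σ_rel {α β} {q : X} (ha : q ∈ U α) (hb : q ∈ U β) :
    σ α (c α q) = g α β q * σ β (c β q) := by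
  have k : ∀ γ, σ γ (c γ q) * (l γ q).1 1 = (l γ q).2.1 0 ∧
      σ γ (c γ q) * (l γ q).1 0 = (l γ q).2.1 1 := fun γ => by
    fin_cases γ <;> simp [σ, l, s] <;> ring
  obtain ⟨h1, h2, h3⟩ := rel ha hb
  have ka := k α
  have kb := k β
  rw [h3] at kb
  simp only [Pi.smul_apply, smul_eq_mul] at kb
  unfold g
  rcases xne α q with h | h
  · refine mul_right_cancel₀ h ?_
    rw [ka.2]; have := kb.2; field_simp at this ⊢; linear_combination -this
  · refine mul_right_cancel₀ h ?_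
    rw [ka.1]; have := kb.1; field_simp at this ⊢; linear_combination -this

lemma θ_rel {α β} {q : X} (ha : q ∈ U α) (hb : q ∈ U β) (h0 : π q = 0) :
    (c α q).2.1 = g α β q ^ 2 * (c β q).2.1 := by
  have k : ∀ γ, (c γ q).2.1 * (l γ q).1 1 ^ 2 = (l γ q).2.1 0 * (l γ q).2.1 3 ∧
      (c γ q).2.1 * (l γ q).1 0 ^ 2 = (l γ q).2.1 2 * (l γ q).2.1 3 := fun γ => by
    have : (c γ q).2.2 = 0 := h0
    fin_cases γ <;> simp [l, s] at this ⊢ <;> simp [this] <;> ring_nf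
  obtain ⟨h1, h2, h3⟩ := rel ha hb
  have ka := k α
  have kb := k β
  rw [h3] at kb
  simp only [Pi.smul_apply, smul_eq_mul] at kb
  unfold g
  rcases xne α q with h | h
  · refine mul_right_cancel₀ (pow_ne_zero 2 h) ?_
    rw [ka.2]; have := kb.2; field_simp at this ⊢; linear_combination -this
  · refine mul_right_cancel₀ (pow_ne_zero 2 h) ?_
    rw [ka.1]; have := kb.1; field_simp at this ⊢; linear_combination -this

lemma psef : PosMetric U g univ fun α q => ENNReal.log ‖σ α (c α q) ^ 2‖ₑ := by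
  refine ⟨fun α => psh_log ((md_comp α (F := fun e => σ α e ^ 2) ?_).mono inter_subset_right)
    fun q hq => ?_, fun α β q hq => log_rel (g_ne hq.1.2 hq.2) ?_⟩
  · fin_cases α <;> simp [σ] <;> fun_prop
  · simp only [ne_eq, pow_eq_zero_iff two_ne_zero]
    fin_cases α
    · exact dens _ (F := σ 0) hq.2 0 (fun _ _ => trivial) 1 0 (.inr one_ne_zero) fun ε => by simp [σ]
    · exact dens _ (F := σ 1) hq.2 (0, 1, 0) (fun _ _ => trivial) _ 1 (.inl one_ne_zero) fun ε => by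
        simp [σ]; rfl
    · exact dens _ (F := σ 2) hq.2 (1, 0, 0) (fun _ _ => trivial) (σ 2 (c 2 q)) 1 (.inl one_ne_zero)
        fun ε => by simp [σ]; ring
    · exact dens _ (F := σ 3) hq.2 (0, 0, -1) (fun _ _ => trivial) (σ 3 (c 3 q)) 1
        (.inl one_ne_zero) fun ε => by simp [σ]; ring
  · rw [σ_rel hq.1.2 hq.2, mul_pow]

lemma central : PosMetric U g (π ⁻¹' {0}) fun α q => ENNReal.log ‖(c α q).2.1‖ₑ := by
  refine ⟨fun α => psh_log ((md_comp α (F := fun e => e.2.1) (by fun_prop)).mono inter_subset_right)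
    fun q hq => ?_, fun α β q hq => log_rel (g_ne hq.1.2 hq.2) (θ_rel hq.1.2 hq.2 hq.1.1)⟩
  refine dens α (F := fun e => e.2.1) hq.2 (0, 1, 0) (fun ε h => ?_) (c α q).2.1 1
    (.inl one_ne_zero) fun ε => by simp
  show π _ = 0
  rw [π_ci α h]
  have : (c α q).2.2 = 0 := hq.1
  simp [this]

def sg3 (p : P) (j : Fin 2 × Fin 4 × Fin 2) : ℂ := p.1 j.1 * p.2.1 j.2.1 * ![1, p.2.2] j.2.2

lemma sg3_cd (α j) : ContDiff ℂ ω fun e => sg3 (s α e) j := by
  refine ((s1 α _).mul (s2 α _)).mul ?_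
  obtain ⟨_, _, k⟩ := j
  fin_cases k <;> simp [s_t] <;> fun_prop

noncomputable def R (p : P) : ℝ := ∑ j, ((sg3 p j).re ^ 2 + (sg3 p j).im ^ 2)

lemma sg3_one (α e) : sg3 (s α e) (bi α, dn α, 0) = 1 := by simp [sg3, s_bi, s_dn]

lemma R_pos (α e) : 0 < R (s α e) :=
  Finset.sum_pos' (fun _ _ => by positivity) ⟨(bi α, dn α, 0), Finset.mem_univ _, by simp [sg3_one]⟩

lemma kahler (S : Set X) : Kahler S := by
  have an : ∀ α f, Disc (U α) f → ∀ j, AnalyticAt ℂ (fun z => sg3 (l α (f z)) j) 0 :=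
    fun α f hf j => hf.an (md_comp α (sg3_cd α j)) 0 (by simp)
  refine ⟨Fin 4, U, fun α q => Real.log (R (l α q)), U_open,
    fun q _ => mem_iUnion.2 ((cover' q).imp fun _ h => h.1), fun α => ?_, fun α f hf h0 => ?_,
    fun α β f hf => ?_⟩
  · have : ContDiff ℝ ∞ fun e => Real.log (R (s α e)) := by
      refine ContDiff.log (ContDiff.sum fun j _ => ?_) fun e => (R_pos α e).ne'
      have h : ContDiff ℝ ∞ fun e => sg3 (s α e) j := ((sg3_cd α j).restrict_scalars ℝ).of_le le_top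
      exact ((Complex.reCLM.contDiff.comp h).pow 2).add ((Complex.imCLM.contDiff.comp h).pow 2)
    exact this.contMDiff.comp_contMDiffOn (sm_c α)
  · have hf' := hf.mono inter_subset_right
    refine lap (g := fun j z => sg3 (l α (f z)) j) (an α f hf') (bi α, dn α, 0)
      (Eventually.of_forall fun z => sg3_one α _) ?_
    by_contra hc
    push Not at hc
    have a1 := (an α f hf' (bo α, dn α, 0)).differentiableAt.hasDerivAt
    have a2 := (an α f hf' (bi α, nm α, 0)).differentiableAt.hasDerivAt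
    have a3 := (an α f hf' (bi α, dn α, 1)).differentiableAt.hasDerivAt
    rw [hc] at a1 a2 a3
    simp [sg3, l, s_bi, s_bo, s_dn, s_nm, s_t] at a1 a2 a3
    have a : HasDerivAt (fun z => c α (f z)) 0 0 := a1.prodMk (a2.prodMk a3)
    obtain ⟨r, hr, -, hm⟩ := hf'
    have e : f =ᶠ[𝓝 0] ci α ∘ fun z => c α (f z) := by
      filter_upwards [ball_mem_nhds (0:ℂ) (zero_lt_one.trans hr)] with z hz using (ci_c (hm hz)).symm
    apply h0
    have e2 := mfderiv_comp (f := fun z => c α (f z)) 0 ((md_ci α _ (c_mem α _)).mdifferentiableAt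
      (D_open.mem_nhds (c_mem α _))) a.differentiableAt.mdifferentiableAt
    have e3 : mfderiv 𝓘(ℂ) 𝓘(ℂ, E) (fun z => c α (f z)) 0 = 0 := by
      rw [mfderiv_eq_fderiv, a.hasFDerivAt.fderiv]
      ext <;> simp <;> rfl
    rw [e3, ContinuousLinearMap.comp_zero] at e2
    exact e.mfderiv_eq.trans e2
  · have ha := hf.mono (inter_subset_left.trans inter_subset_right)
    have hb := hf.mono inter_subset_right
    set h : ℂ → ℂ := fun z => ((l α (f z)).1 (bi β) * (l α (f z)).2.1 (dn β)) ^ 2 with hh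
    have hha : AnalyticAt ℂ h 0 :=
      ha.an (md_comp α (((s1 α (bi β)).mul (s2 α (dn β))).pow 2)) 0 (by simp)
    obtain ⟨r, hr, -, hm⟩ := hf
    have hr0 := zero_lt_one.trans hr
    have hne : h 0 ≠ 0 := by
      have := hm (mem_ball_self hr0)
      exact pow_ne_zero 2 (mul_ne_zero (rel this.1.2 this.2).1 (rel this.1.2 this.2).2.1)
    have e : (fun z => Real.log (R (l α (f z)))) =ᶠ[𝓝 0]
        (fun z => Real.log (R (l β (f z)))) + fun z => Real.log ‖h z‖ := by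
      filter_upwards [ball_mem_nhds (0:ℂ) hr0] with z hz
      obtain ⟨h1, h2, h3⟩ := rel (hm hz).1.2 (hm hz).2
      have e2 : ∀ w : ℂ, w.re ^ 2 + w.im ^ 2 = ‖w‖ ^ 2 := fun w => by
        rw [Complex.sq_norm, Complex.normSq_apply]; ring
      have : R (l α (f z)) = R (l β (f z)) * ‖h z‖ := by
        rw [h3]
        simp only [R, e2, Finset.sum_mul, hh]
        refine Finset.sum_congr rfl fun j _ => ?_
        rw [norm_pow, ← mul_pow, ← norm_mul]
        congr 2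
        simp only [sg3, Pi.smul_apply, smul_eq_mul]
        field_simp
      rw [this]
      exact Real.log_mul (R_pos β _).ne' (norm_ne_zero_iff.2 (pow_ne_zero 2 (mul_ne_zero h1 h2)))
    have hH := hha.harmonicAt_log_norm hne
    rw [(InnerProductSpace.laplacian_congr_nhds e).eq_of_nhds, ContDiffAt.laplacian_add ?_ hH.1,
      hH.2.eq_of_nhds]
    · simp
    · exact (cN (g := fun j z => sg3 (l β (f z)) j) (an β f hb)).log (R_pos β _).ne'

lemma disc_line (α) {r : ℝ} (e d : E) (h : ∀ z : ℂ, ‖z‖ < 2 → ‖(e + z • d).2.2‖ < min r 1) :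
    Disc (π ⁻¹' ball 0 r ∩ U α) fun z => ci α (e + z • d) := by
  have hD : ∀ z ∈ ball (0:ℂ) 2, e + z • d ∈ D := fun z hz =>
    (h z (mem_ball_zero_iff.1 hz)).trans_le (min_le_right _ _)
  refine ⟨2, one_lt_two, ?_, fun z hz => ⟨?_, ci_mem α (hD z hz)⟩⟩
  · have : Differentiable ℂ fun z : ℂ => e + z • d := by fun_prop
    exact (md_ci α).comp this.mdifferentiable.mdifferentiableOn hD
  · show π _ ∈ ball 0 r
    rw [π_ci α (hD z hz), mem_ball_zero_iff]
    exact (h z (mem_ball_zero_iff.1 hz)).trans_le (min_le_left _ _)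

lemma usc_toReal {u : ℂ → EReal} (hu : UpperSemicontinuous u) (ht : ∀ z, u z ≠ ⊤) :
    UpperSemicontinuous fun z => (max (u z) ((-1 : ℝ) : EReal)).toReal := by
  intro z y hy
  have hf : ∀ w, max (u w) ((-1 : ℝ) : EReal) = ((max (u w) ((-1 : ℝ) : EReal)).toReal : ℝ) :=
    fun w => (EReal.coe_toReal (max_lt (ht w).lt_top (EReal.coe_lt_top _)).ne
      (lt_max_of_lt_right (EReal.bot_lt_coe _)).ne').symm
  have h1 : max (u z) ((-1 : ℝ) : EReal) < y := by rw [hf]; exact_mod_cast hy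
  filter_upwards [hu z y (lt_of_le_of_lt (le_max_left _ _) h1)] with w hw
  have := max_lt hw (lt_of_le_of_lt (le_max_right _ _) h1)
  rw [hf] at this
  exact_mod_cast this

lemma low (u : EReal) (hu : u ≠ ⊤) : -1 ≤ (max u ((-1 : ℝ) : EReal)).toReal := by
  have := EReal.toReal_le_toReal (le_max_right u ((-1 : ℝ) : EReal)) (EReal.coe_ne_bot _)
    (max_lt hu.lt_top (EReal.coe_lt_top _)).ne
  simpa using this

lemma line_fn (α) {r : ℝ} {φ : X → EReal} (hφ : Psh (π ⁻¹' ball 0 r ∩ U α) φ) (e d : E)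
    (hd : d.2.2 = 0) (he : ‖e.2.2‖ < min r 1) :
    let v := fun z : ℂ => (max (φ (ci α (e + z • d))) ((-1 : ℝ) : EReal)).toReal
    UpperSemicontinuous v ∧ ∀ M, (∀ z, v z ≤ M) → ∀ z, v z = M → ∀ w, v w = M := by
  intro v
  have hD : ∀ z : ℂ, e + z • d ∈ D := fun z => by
    simpa [D, hd] using he.trans_le (min_le_right _ _)
  have hm : ∀ z : ℂ, ci α (e + z • d) ∈ π ⁻¹' ball 0 r ∩ U α := fun z =>
    ⟨by
      show π _ ∈ ball 0 r
      rw [π_ci α (hD z)]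
      simpa [hd] using he.trans_le (min_le_left _ _), ci_mem α (hD z)⟩
  have hc : Continuous fun z : ℂ => ci α (e + z • d) :=
    (ci_cont α).comp_continuous (by fun_prop) hD
  have hu : UpperSemicontinuous v := by
    refine usc_toReal (fun z y hy => ?_) fun z => hφ.2.1 _ (hm z)
    exact (tendsto_nhdsWithin_iff.2 ⟨hc.tendsto z, Eventually.of_forall hm⟩).eventually
      (hφ.1 _ (hm z) y hy)
  refine ⟨hu, fun M hM z hz w => ?_⟩
  have hh := hφ.2.2.2 _ (disc_line α (r := r) (e + z • d) ((w - z) • d) fun _ _ => by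
    simpa [hd] using he) (-1)
  have e1 : ∀ y : ℂ, e + z • d + y • (w - z) • d = e + (z + y * (w - z)) • d := fun y => by
    rw [smul_smul, add_smul, add_assoc]
  simp only [e1] at hh
  have := smax (v := fun y => v (z + y * (w - z))) (c := -1) (M := M)
    (hu.comp (by fun_prop)) (fun y => low _ (hφ.2.1 _ (hm _))) (fun y => hM _)
    (by rw [← hz]; simpa [v] using hh)
  simpa using this

lemma glue {u v : ℂ → ℝ} (hu : UpperSemicontinuous u) (hv : UpperSemicontinuous v)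
    (hu' : ∀ M, (∀ z, u z ≤ M) → ∀ z, u z = M → ∀ w, u w = M)
    (hv' : ∀ M, (∀ z, v z ≤ M) → ∀ z, v z = M → ∀ w, v w = M)
    (h : ∀ z, z ≠ 0 → u z = v z⁻¹) {a b : ℂ} (ha : a ≠ 0) (hb : b ≠ 0) : u a = u b := by
  have hne : (closedBall (0:ℂ) 1).Nonempty := ⟨0, by simp⟩
  obtain ⟨z, -, hz⟩ := (hu.upperSemicontinuousOn _).exists_isMaxOn hne (isCompact_closedBall 0 1)
  obtain ⟨w, -, hw⟩ := (hv.upperSemicontinuousOn _).exists_isMaxOn hne (isCompact_closedBall 0 1)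
  have k : ∀ y : ℂ, ¬‖y‖ ≤ 1 → y ≠ 0 ∧ y⁻¹ ∈ closedBall (0:ℂ) 1 := fun y hy =>
    ⟨fun e => hy (by simp [e]), by simpa using inv_le_one_of_one_le₀ (not_le.1 hy).le⟩
  have b1 : ∀ y, u y ≤ max (u z) (v w) := fun y => by
    by_cases hy : ‖y‖ ≤ 1
    · exact le_max_of_le_left (hz (by simpa using hy))
    · rw [h y (k y hy).1]; exact le_max_of_le_right (hw (k y hy).2)
  have b2 : ∀ y, v y ≤ max (u z) (v w) := fun y => by
    by_cases hy : ‖y‖ ≤ 1
    · exact le_max_of_le_right (hw (by simpa using hy))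
    · rw [← inv_inv y, ← h _ (inv_ne_zero (k y hy).1)]; exact le_max_of_le_left (hz (k y hy).2)
  rcases le_total (u z) (v w) with c | c
  · rw [h a ha, h b hb]
    exact (hv' _ b2 w (max_eq_right c).symm _).trans (hv' _ b2 w (max_eq_right c).symm _).symm
  · exact (hu' _ b1 z (max_eq_left c).symm _).trans (hu' _ b1 z (max_eq_left c).symm _).symm

lemma noext {r : ℝ} (hr : 0 < r) {φ : Fin 4 → X → EReal} (hφ : PosMetric U g (π ⁻¹' ball 0 r) φ)
    (h0 : ∀ i, ∀ x ∈ π ⁻¹' {0} ∩ U i, φ i x = ENNReal.log ‖(c i x).2.1‖ₑ) : False := by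
  have hm : 0 < min r 1 := lt_min hr one_pos
  have key : ∀ t : ℂ, t ≠ 0 → ‖t‖ < min r 1 →
      (max (φ 0 (ci 0 (1 - t, 1, t))) ((-1 : ℝ) : EReal)).toReal =
        (max (φ 0 (ci 0 (1, 0, t))) ((-1 : ℝ) : EReal)).toReal := by
    intro t ht htr
    have ht1 : ‖t‖ < 1 := htr.trans_le (min_le_right _ _)
    obtain ⟨a1, a2⟩ := line_fn 0 (hφ.1 0) (0, t⁻¹, t) (1, -t⁻¹, 0) rfl htr
    obtain ⟨b1, b2⟩ := line_fn 2 (hφ.1 2) (0, -t⁻¹, t) (1, t⁻¹, 0) rfl htr
    have := glue a1 b1 a2 b2 (fun z hz => ?_) (a := 1 - t) (b := 1)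
      (fun h => by rw [← sub_eq_zero.1 h] at ht1; simp at ht1) one_ne_zero
    · have e1 : ((0, t⁻¹, t) : E) + (1 - t) • ((1, -t⁻¹, 0) : E) = (1 - t, 1, t) := by
        ext <;> simp; field_simp; ring
      have e2 : ((0, t⁻¹, t) : E) + (1 : ℂ) • ((1, -t⁻¹, 0) : E) = (1, 0, t) := by
        ext <;> simp
      simpa only [e1, e2] using this
    · have e1 : ((0, t⁻¹, t) : E) + z • ((1, -t⁻¹, 0) : E) = (z, (1 - z) * t⁻¹, t) := by
        ext <;> simp; ring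
      have hD : ((z, (1 - z) * t⁻¹, t) : E) ∈ D := ht1
      have x2 : z ^ 2 + t * z * ((1 - z) * t⁻¹) = z := by field_simp; ring
      have hU : ci 0 (z, (1 - z) * t⁻¹, t) ∈ U 2 := by
        rw [ci_eq 0 hD, memU]; simp [s, bi, dn, x2, hz]
      have e2 : ((0, -t⁻¹, t) : E) + z⁻¹ • ((1, t⁻¹, 0) : E) = c 2 (ci 0 (z, (1 - z) * t⁻¹, t)) := by
        have := hU
        rw [ci_eq 0 hD] at this ⊢
        rw [c_mk _ this]
        ext <;> simp [rat, s, bi, bo, dn, nm, x2]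
        field_simp; ring
      have hS : ci 0 (z, (1 - z) * t⁻¹, t) ∈ π ⁻¹' ball 0 r := by
        show π _ ∈ ball 0 r
        rw [π_ci 0 hD, mem_ball_zero_iff]; exact htr.trans_le (min_le_left _ _)
      have hg : g 0 2 (ci 0 (z, (1 - z) * t⁻¹, t)) = 1 := by
        simp [g, l, c_ci 0 hD, s, bi, dn, x2, hz]
      simp only [e1, e2, ci_c hU]
      rw [hφ.2 0 2 _ ⟨⟨hS, ci_mem 0 hD⟩, hU⟩, hg]
      simp
  have val : ∀ v : ℂ, φ 0 (ci 0 (1, v, 0)) = ENNReal.log ‖v‖ₑ := fun v => by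
    have hD : ((1, v, 0) : E) ∈ D := by simp [D]
    rw [h0 0 _ ⟨π_ci 0 hD, ci_mem 0 hD⟩, c_ci 0 hD]
  have ev : ∀ᶠ t : ℂ in 𝓝 0, φ 0 (ci 0 (1, 0, t)) < ((-1 : ℝ) : EReal) := by
    have hD : ((1, 0, 0) : E) ∈ D := by simp [D]
    have h1 : ∀ᶠ t : ℂ in 𝓝 0, ‖t‖ < min r 1 := by
      filter_upwards [ball_mem_nhds (0:ℂ) hm] with t ht using mem_ball_zero_iff.1 ht
    have h2 : ∀ t : ℂ, ‖t‖ < min r 1 → ci 0 (1, 0, t) ∈ π ⁻¹' ball 0 r ∩ U 0 := fun t ht => by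
      have hD : ((1, 0, t) : E) ∈ D := ht.trans_le (min_le_right _ _)
      refine ⟨?_, ci_mem 0 hD⟩
      show π _ ∈ ball 0 r
      rw [π_ci 0 hD, mem_ball_zero_iff]; exact ht.trans_le (min_le_left _ _)
    have h3 : Tendsto (fun t : ℂ => ci 0 (1, 0, t)) (𝓝 0) (𝓝 (ci 0 (1, 0, 0))) :=
      ((ci_cont 0).continuousAt (D_open.mem_nhds hD)).tendsto.comp
        (Continuous.tendsto (f := fun t : ℂ => ((1, 0, t) : E)) (by fun_prop) 0)
    refine (tendsto_nhdsWithin_iff.2 ⟨h3, h1.mono h2⟩).eventually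
      ((hφ.1 0).1 _ (h2 0 (by simpa using hm)) _ ?_)
    show φ 0 _ < _
    rw [val]; simpa using EReal.bot_lt_coe (-1)
  obtain ⟨δ, hδ, hb⟩ := Metric.eventually_nhds_iff.1 ev
  set ε : ℝ := min δ (min r 1) / 2 with hε
  have hε0 : 0 < ε := by positivity
  have hε1 : 2 * ε ≤ δ := by rw [hε]; linarith [min_le_left δ (min r 1)]
  have hε2 : 2 * ε ≤ min r 1 := by rw [hε]; linarith [min_le_right δ (min r 1)]
  have hh := (hφ.1 0).2.2.2 _ (disc_line 0 (r := r) (1, 1, 0) (-ε, 0, ε) fun z hz => by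
    simp [abs_of_pos hε0]; rw [← lt_min_iff]; nlinarith) (-1)
  rw [Real.circleAverage_const_on_circle (a := -1)] at hh
  · simp [val] at hh
    norm_num at hh
  · intro z hz
    have hz1 : ‖z‖ = 1 := by simpa using hz
    have hn : ‖z * ε‖ = ε := by simp [hz1, abs_of_pos hε0]
    have e1 : ((1, 1, 0) : E) + z • ((-ε, 0, ε) : E) = (1 - z * ε, 1, z * ε) := by
      ext <;> simp; ring
    rw [e1, key _ (norm_pos_iff.1 (hn.symm ▸ hε0 : 0 < ‖z * ε‖)) (by rw [hn]; linarith), max_eq_right (hb ?_).le]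
    · simp
    · rw [dist_zero_right, hn]; linarith

theorem result : ∃ (X : Type) (_ : TopologicalSpace X) (_ : T2Space X)
    (_ : SecondCountableTopology X) (_ : ChartedSpace (ℂ × ℂ × ℂ) X)
    (_ : IsManifold 𝓘(ℂ, ℂ × ℂ × ℂ) ω X) (π : X → ℂ)
    (ι : Type) (U : ι → Set X) (g : ι → ι → X → ℂ),
    (MDifferentiable 𝓘(ℂ, ℂ × ℂ × ℂ) 𝓘(ℂ) π ∧ range π = ball 0 1 ∧
      (∀ K ⊆ ball 0 1, IsCompact K → IsCompact (π ⁻¹' K)) ∧
      (∀ x, Function.Surjective (mfderiv 𝓘(ℂ, ℂ × ℂ × ℂ) 𝓘(ℂ) π x)) ∧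
      ∀ t ∈ ball 0 1, IsConnected (π ⁻¹' {t}) ∧ Kahler (π ⁻¹' {t})) ∧
    ((∀ i, IsOpen (U i)) ∧ ⋃ i, U i = univ ∧
      (∀ i j, MDifferentiableOn 𝓘(ℂ, ℂ × ℂ × ℂ) 𝓘(ℂ) (g i j) (U i ∩ U j)) ∧
      (∀ i j, ∀ x ∈ U i ∩ U j, g i j x ≠ 0) ∧
      ∀ i j k, ∀ x ∈ U i ∩ U j ∩ U k, g i j x * g j k x = g i k x) ∧
    (∃ φ, PosMetric U g univ φ) ∧
    ∃ φ₀, PosMetric U g (π ⁻¹' {0}) φ₀ ∧
      ∀ r > (0 : ℝ), ¬∃ φ, PosMetric U g (π ⁻¹' ball 0 r) φ ∧
        ∀ i, ∀ x ∈ π ⁻¹' {0} ∩ U i, φ i x = φ₀ i x := by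
  refine ⟨X, inferInstance, inferInstance, inferInstance, inferInstance, inferInstance, π, Fin 4,
    U, g, ⟨md_π, range_π, proper, subm, fun t ht => ⟨conn t ht, kahler _⟩⟩,
    ⟨U_open, eq_univ_of_forall fun q => mem_iUnion.2 ((cover' q).imp fun _ h => h.1),
      fun α β => ?_, fun α β q hq => g_ne hq.1 hq.2, fun α β γ q hq => ?_⟩, ⟨_, psef⟩, _, central,
    fun r hr ⟨φ, h1, h2⟩ => noext hr h1 h2⟩
  · intro q hq
    have h1 := (md_comp α (s2 α (dn β)) q hq.1).mono (inter_subset_left (t := U β))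
    have h2 := (md_comp α (s1 α (bi β)) q hq.1).mono (inter_subset_left (t := U β))
    have h3 : DifferentiableAt ℂ (fun p : ℂ × ℂ => p.1 / p.2)
        ((l α q).2.1 (dn β), (l α q).1 (bi β)) :=
      by
        have := (rel hq.1 hq.2).1
        fun_prop (disch := assumption)
    exact h3.mdifferentiableAt.comp_mdifferentiableWithinAt q (h1.prodMk_space h2)
  · obtain ⟨h1, h2, h3⟩ := rel hq.1.1 hq.1.2
    have h4 := (rel hq.1.1 hq.2).1
    unfold g
    rw [h3]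
    simp only [Pi.smul_apply, smul_eq_mul]
    field_simp

end Pool.Agent.Results.MP_752b71_an.NoExt
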